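import Pool.Agent.Lib.MP_210493_lc.PL.Merge

/-! Module PL-Closure.  Minors of planar graphs are planar.

PROOF.  Let `und D = G`, `NRep univ (dend D) pos`, `(β, ι)` a model of `G'` in `G`.
CLAIM.  For every finite set `F` of edges with `F ∩ range ι = ∅` there are `r : V → V` and `pos'`
with: (1) `NRep Fᶜ (r ∘ dend D) pos'`; (2) `r u = r v → u = v ∨ (β u = β v ∧ β u ≠ none)`;
(3) for all `e ∈ F` with ends `u, v` (`u = (D e).1`, `v = (D e).2`) and `β u = β v ≠ none` one has
`r u = r v`.  Induction on `F`: `F = ∅`: `r = id`.  `F ∪ {e}`, `e ∉ F`: let `u, v` be the ends of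
`e`.  If `β u = β v ≠ none`: apply `merge` to `NRep Fᶜ (r ∘ dend D) pos'` and `e`, with
`r' w = if r w = r v then r u else r w` (check the condition on `ℓ'`; `Fᶜ \ {e} = (F ∪ {e})ᶜ`);
(2) for `r'`: `r' w = r' w'` gives `r w = r w'` or `{r w, r w'} = {r u, r v}`; in the second case
`β w = β u = β v = β w' ≠ none` by (2) for `r`.  (3) clear.  Otherwise keep `r` and `pos'` (an
`NRep` restricts to smaller sets `T`); (3) is clear.
Apply the claim to `F = (range ι)ᶜ` (finite).  Then for `u, v` with `β u ≠ none`:
`β u = β v → r u = r v`: `conn` of the model gives a path of non-kept edges inside the branch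
set, use (3) along it (each step is an edge `e ∉ range ι` with `s(a, b) = und D e`).
So on the darts of `range ι` the classes of `r ∘ dend D` are the classes of `β ∘ dend D`
((2) and the last remark; the end of a kept dart has `β ≠ none`).
Orientation `D'` of `G'`: `β (D (ι e)).1 = some a`, `β (D (ι e)).2 = some b` with
`s(a, b) = G' e` (from `ends`); put `D' e = (a, b)`.  Positions `pos'' (e, b) = pos' (ι e, b)`.
Then `some (dend D' p) = β (dend D (ι p.1, p.2))`, and `NRep univ (dend D') pos''` follows. -/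

namespace Pool.Agent.Lib.MP_210493_lc

private theorem closure_aux {V E V' : Type} [Finite E] {D : Dig V E} {β : V → Option V'}
    {pos : E × Bool → ℕ} (h : NRep Set.univ (dend D) pos) (F : Set E) :
    ∃ (r : V → V) (pos' : E × Bool → ℕ), NRep Fᶜ (r ∘ dend D) pos' ∧
      (∀ u v, r u = r v → u = v ∨ (β u = β v ∧ β u ≠ none)) ∧
      (∀ e ∈ F, β (D e).1 = β (D e).2 → β (D e).1 ≠ none → r (D e).1 = r (D e).2) := by
  classical
  induction F, Set.toFinite F using Set.Finite.induction_on with
  | empty =>
    refine ⟨id, pos, ?_, fun u v huv => Or.inl huv, fun e he => he.elim⟩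
    rw [Set.compl_empty]
    exact h
  | @insert e F he _ ih =>
    obtain ⟨r, pos', h1, h2, h3⟩ := ih
    have hset : (insert e F)ᶜ = Fᶜ \ {e} := by
      ext x
      simp only [Set.mem_compl_iff, Set.mem_insert_iff, Set.mem_diff, Set.mem_singleton_iff, not_or]
      exact and_comm
    by_cases hb : β (D e).1 = β (D e).2 ∧ β (D e).1 ≠ none
    · have key : ∀ a b x y : V, ((if a = y then x else a) = (if b = y then x else b)) ↔
          (a = b ∨ (a = x ∧ b = y) ∨ (a = y ∧ b = x)) := by
        intro a b x y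
        by_cases ha : a = y <;> by_cases hb' : b = y
        · rw [if_pos ha, if_pos hb']
          exact ⟨fun _ => Or.inl (ha.trans hb'.symm), fun _ => rfl⟩
        · rw [if_pos ha, if_neg hb']
          constructor
          · intro h5
            exact Or.inr (Or.inr ⟨ha, h5.symm⟩)
          · rintro (h5 | ⟨_, h5⟩ | ⟨_, h5⟩)
            · exact (hb' (h5.symm.trans ha)).elim
            · exact (hb' h5).elim
            · exact h5.symm
        · rw [if_neg ha, if_pos hb']
          constructor
          · intro h5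
            exact Or.inr (Or.inl ⟨h5, hb'⟩)
          · rintro (h5 | ⟨h5, _⟩ | ⟨h5, _⟩)
            · exact (ha (h5.trans hb')).elim
            · exact h5
            · exact (ha h5).elim
        · rw [if_neg ha, if_neg hb']
          constructor
          · intro h5
            exact Or.inl h5
          · rintro (h5 | ⟨_, h5⟩ | ⟨h5, _⟩)
            · exact h5
            · exact (hb' h5).elim
            · exact (ha h5).elim
      obtain ⟨pos'', h4⟩ := merge h1 e he
        ((fun w => if r w = r (D e).2 then r (D e).1 else r w) ∘ dend D)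
        (fun p q _ _ _ _ => key (r (dend D p)) (r (dend D q)) (r (D e).1) (r (D e).2))
      refine ⟨fun w => if r w = r (D e).2 then r (D e).1 else r w, pos'', ?_, ?_, ?_⟩
      · rw [hset]
        exact h4
      · intro w w' hw
        have hu : ∀ w, r w = r (D e).1 → β w = β (D e).1 := by
          intro w hw
          rcases h2 _ _ hw with h5 | h5
          · rw [h5]
          · exact h5.1
        have hv : ∀ w, r w = r (D e).2 → β w = β (D e).1 := by
          intro w hw
          rcases h2 _ _ hw with h5 | h5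
          · rw [h5, hb.1]
          · rw [h5.1, hb.1]
        rcases (key (r w) (r w') (r (D e).1) (r (D e).2)).1 hw with h5 | ⟨h5, h6⟩ | ⟨h5, h6⟩
        · exact h2 _ _ h5
        · exact Or.inr ⟨(hu w h5).trans (hv w' h6).symm, by rw [hu w h5]; exact hb.2⟩
        · exact Or.inr ⟨(hv w h5).trans (hu w' h6).symm, by rw [hv w h5]; exact hb.2⟩
      · intro e' he' h5 h6
        apply (key (r (D e').1) (r (D e').2) (r (D e).1) (r (D e).2)).2
        rcases he' with h7 | h7
        · rw [h7]
          exact Or.inr (Or.inl ⟨rfl, rfl⟩)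
        · exact Or.inl (h3 e' h7 h5 h6)
    · refine ⟨r, pos', ?_, h2, ?_⟩
      · rw [hset]
        refine ⟨fun p q hp hq => h1.inj p q hp.1 hq.1, ?_, ?_⟩
        · rintro p ⟨hp, -⟩ q ⟨hq, -⟩ s ⟨hs, -⟩ t ⟨ht, -⟩
          exact h1.up p hp q hq s hs t ht
        · rintro p ⟨hp, -⟩ q ⟨hq, -⟩ s ⟨hs, -⟩ t ⟨ht, -⟩
          exact h1.low p hp q hq s hs t ht
      · intro e' he' h5 h6
        rcases he' with h7 | h7
        · rw [h7] at h5 h6
          exact (hb ⟨h5, h6⟩).elim
        · exact h3 e' h7 h5 h6

theorem PlanarG.minor {V E V' E' : Type} [Finite E] {G : Gra V E} {G' : Gra V' E'}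
    (h : PlanarG G) (hm : GMinor G' G) : PlanarG G' := by
  obtain ⟨D, hD, pos, hpos⟩ := h
  obtain ⟨β, ι, hm⟩ := hm
  obtain ⟨r, pos', h1, h2, h3⟩ := closure_aux (β := β) hpos (Set.range ι)ᶜ
  rw [compl_compl] at h1
  -- the branch sets are identified
  have h4 : ∀ u v a, β u = some a → β v = some a → r u = r v := by
    intro u v a hu hv
    have hj := hm.conn u v a hu hv
    clear hv
    induction hj with
    | refl => rfl
    | tail _ hbc ih =>
      obtain ⟨hb, hc, e, he, hee⟩ := hbc
      rw [ih]
      rw [← hD] at hee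
      have hee' : s((D e).1, (D e).2) = s(_, _) := hee
      rw [Sym2.eq_iff] at hee'
      have hb' : β _ = some a := hb
      have hc' : β _ = some a := hc
      rcases hee' with ⟨h5, h6⟩ | ⟨h5, h6⟩
      · have := h3 e he (by rw [h5, h6, hb', hc']) (by rw [h5, hb']; exact Option.some_ne_none a)
        rw [h5, h6] at this
        exact this
      · have := h3 e he (by rw [h5, h6, hb', hc']) (by rw [h5, hc']; exact Option.some_ne_none a)
        rw [h5, h6] at this
        exact this.symm
  have h5 : ∀ e : E', ∃ d : V' × V', s(d.1, d.2) = G' e ∧ β (D (ι e)).1 = some d.1 ∧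
      β (D (ι e)).2 = some d.2 := by
    intro e
    have he := hm.ends e
    rw [← hD] at he
    obtain ⟨⟨x, y⟩, hxy⟩ := Quot.exists_rep (G' e)
    change s(x, y) = G' e at hxy
    change s(β (D (ι e)).1, β (D (ι e)).2) = Sym2.map some (G' e) at he
    rw [← hxy, Sym2.map_mk, Sym2.eq_iff] at he
    rcases he with ⟨h6, h7⟩ | ⟨h6, h7⟩
    · exact ⟨(x, y), hxy, h6, h7⟩
    · exact ⟨(y, x), Sym2.eq_swap.trans hxy, h6, h7⟩
  choose D' hD1 hD2 hD3 using h5
  have h6 : ∀ p : E' × Bool, β (dend D (ι p.1, p.2)) = some (dend D' p) := by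
    rintro ⟨e, b⟩
    cases b
    · exact hD3 e
    · exact hD2 e
  have h7 : ∀ p q : E' × Bool, dend D' p = dend D' q ↔
      (r ∘ dend D) (ι p.1, p.2) = (r ∘ dend D) (ι q.1, q.2) := by
    intro p q
    constructor
    · intro h8
      exact h4 _ _ _ (h6 p) (by rw [h6 q, h8])
    · intro h8
      rcases h2 _ _ h8 with h9 | h9
      · have h10 := h6 p
        rw [h9, h6 q] at h10
        exact (Option.some.inj h10).symm
      · have h10 := h9.1
        rw [h6 p, h6 q] at h10
        exact Option.some.inj h10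
  have hmem : ∀ p : E' × Bool, (ι p.1, p.2).1 ∈ Set.range ι := fun p => ⟨p.1, rfl⟩
  refine ⟨D', funext hD1, fun p => pos' (ι p.1, p.2), ?_, ?_, ?_⟩
  · intro p q _ _ hpq
    have h8 := h1.inj _ _ (hmem p) (hmem q) hpq
    have h9 := (Prod.mk.inj h8)
    exact Prod.ext (hm.inj h9.1) h9.2
  · intro p _ q _ s _ t _ hpq hqs hst hps hqt
    have h8 := h1.up (ι p.1, p.2) (hmem p) (ι q.1, q.2) (hmem q) (ι s.1, s.2) (hmem s)
      (ι t.1, t.2) (hmem t) hpq hqs hst (congrArg ι hps) (congrArg ι hqt)
    exact hm.inj h8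
  · intro p _ q _ s _ t _ hpq hqs hst hps hqt
    have h8 := h1.low (ι p.1, p.2) (hmem p) (ι q.1, q.2) (hmem q) (ι s.1, s.2) (hmem s)
      (ι t.1, t.2) (hmem t) hpq hqs hst ((h7 p s).1 hps) ((h7 q t).1 hqt)
    exact (h7 p q).2 h8

end Pool.Agent.Lib.MP_210493_lc
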