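import Pool.Agent.Lib.MP_210493_lc.DG.Basic

/-! Noncrossing representations of planar graphs.

A dart of a graph with edge type `E` is a pair `(e, b) : E × Bool`.  A noncrossing representation
places the darts at different positions of a line such that (upper half plane) the two darts of an
edge are joined by an arc and these arcs do not cross, and (lower half plane) the darts with the
same label (= the same end) form a noncrossing partition. -/

namespace Pool.Agent.Lib.MP_210493_lc

/-- on the set `S` the classes of `f` do not cross with respect to the positions `pos` -/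
def NCrOn {P X : Type} (S : Set P) (pos : P → ℕ) (f : P → X) : Prop :=
  ∀ p ∈ S, ∀ q ∈ S, ∀ r ∈ S, ∀ s ∈ S, pos p < pos q → pos q < pos r → pos r < pos s →
    f p = f r → f q = f s → f p = f q

/-- noncrossing representation of the darts of the edges in `T` with labels `ℓ` -/
structure NRep {E X : Type} (T : Set E) (ℓ : E × Bool → X) (pos : E × Bool → ℕ) : Prop where
  inj : ∀ p q, p.1 ∈ T → q.1 ∈ T → pos p = pos q → p = q
  up : NCrOn {p | p.1 ∈ T} pos Prod.fst
  low : NCrOn {p | p.1 ∈ T} pos ℓ

/-- the end of a dart -/
def dend {V E : Type} (D : Dig V E) (p : E × Bool) : V := if p.2 then (D p.1).1 else (D p.1).2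

/-- `G` has a noncrossing representation -/
def PlanarG {V E : Type} (G : Gra V E) : Prop :=
  ∃ D : Dig V E, und D = G ∧ ∃ pos, NRep Set.univ (dend D) pos

end Pool.Agent.Lib.MP_210493_lc
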