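import Pool.Agent.Lib.MP_210493_lc.PL.Own

/-! Module PL-Draw.  A graph with a noncrossing representation is a minor of a grid.

PROOF.  `L = 2 * Nat.card E`, `K = 4 * (Nat.card V + Nat.card E) + 4`.  All cells `(c, r)` with
`Own D pos L v c r` have `c < L`, `r < 2 L ≤ K` (`len pos e < L`), `L ≤ K`.
`β (c, r) = some v` if `Own D pos L v c r` (unique by `own_unique`); if `c ≥ L`, `r = 0` and
`c - L` is the number `< Nat.card V` of a vertex `v` (`Finite.equivFin V`) without darts:
`some v`; `none` otherwise (`L + Nat.card V ≤ K`).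
`ι e` = the edge of the grid between `(l, L + len pos e)` and `(l+1, L + len pos e)`, where
`l < m` are the two positions of the darts of `e` (`l = min`, `m = max`, `m = l + len pos e`).
The cell `(l, L + len pos e)` belongs to the vertex of the left dart (leg), the cell
`(l+1, L + len pos e)` to the vertex of the right dart (arc).  So `ends` holds.
`ι` is injective: `l` determines the dart.
`ne`: a vertex with a dart `d` owns `(pos d, L)`; the others have their own cell.
`conn`: let `v` have a dart.  Every cell owned by `v` is joined, inside the cells owned by `v`, by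
edges not in `range ι`, to a cell `(pos d, L)` with `dend D d = v`: leg: vertically (vertical edges
are not in `range ι`) (rows between `L - sp v` and `L + len`); bar: along the bar (row
`L - sp v ≤ L`, the edges of `range ι` are in rows `> L`) to `(pos d, L - sp v)`, then up the leg;
arc: the cells `(c, L + len)`, `l < c ≤ m` of the right dart `d`: along the row to `(m, L + len)`
(this edge between `c` and `c+1`, `l < c`, is not `ι e`, and not `ι e'` for another `e'`: `ι e'` joins
a cell `(c, r)` with `pos` of the left dart of `e'` equal to `c`, `r = L + len pos e'`, so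
`len pos e' = len pos e` and `e, e'` would cross or be equal), then down the leg.
Two cells `(pos d, L)`, `(pos d', L)` of `v` are joined through the legs and the bar of `v` (row
`L - sp v`).  A vertex without darts has one cell.
(It is convenient to show first: a horizontal edge between `(c, r)` and `(c+1, r)` is in `range ι`
iff there is an edge `e` with `min = c` and `r = L + len pos e`.) -/

namespace Pool.Agent.Lib.MP_210493_lc

private theorem vert {K : ℕ} {F : Set (GridE K)} {S : Set (Fin K × Fin K)}
    (hF : ∀ e ∈ F, e.1.1.1.1 + 1 = e.1.2.1.1) : ∀ (n : ℕ) (x y : Fin K × Fin K), x.1 = y.1 →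
    y.2.1 = x.2.1 + n →
    (∀ z : Fin K × Fin K, z.1 = x.1 → x.2.1 ≤ z.2.1 → z.2.1 ≤ y.2.1 → z ∈ S) →
    Joined (grid K) F S x y := by
  intro n
  induction n with
  | zero =>
    intro x y h1 h2 _
    have : x = y := Prod.ext h1 (Fin.ext (by omega))
    rw [this]
    exact Relation.ReflTransGen.refl
  | succ n ih =>
    intro x y h1 h2 h3
    have hy := y.2.2
    let y' : Fin K × Fin K := (y.1, ⟨y.2.1 - 1, by omega⟩)
    have hy' : y'.2.1 = y.2.1 - 1 := rfl
    have hy1 : y'.1 = y.1 := rfl
    refine (ih x y' h1 (by omega) ?_).trans ?_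
    · intro z hz1 hz2 hz3
      exact h3 z hz1 hz2 (by omega)
    · refine Joined.single (e := ⟨(y', y), Or.inr ⟨rfl, by change y.2.1 - 1 + 1 = y.2.1; omega⟩⟩) ?_ rfl ?_ ?_
      · intro he
        have h4 := hF _ he
        simp only at h4
        rw [hy1] at h4
        omega
      · exact h3 y' (by rw [hy1, h1]) (by omega) (by omega)
      · exact h3 y h1.symm (by omega) le_rfl

private theorem horiz {K : ℕ} {F : Set (GridE K)} {S : Set (Fin K × Fin K)} (r : Fin K)
    (lo hi : ℕ)
    (hF : ∀ e ∈ F, e.1.1.2 = r → lo ≤ e.1.1.1.1 → e.1.1.1.1 < hi → False)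
    (hS : ∀ z : Fin K × Fin K, z.2 = r → lo ≤ z.1.1 → z.1.1 ≤ hi → z ∈ S) :
    ∀ (n : ℕ) (x y : Fin K × Fin K), x.2 = r → y.2 = r →
    y.1.1 = x.1.1 + n → lo ≤ x.1.1 → y.1.1 ≤ hi → Joined (grid K) F S x y := by
  intro n
  induction n with
  | zero =>
    intro x y h1 h2 h3 _ _
    have : x = y := Prod.ext (Fin.ext (by omega)) (h1.trans h2.symm)
    rw [this]
    exact Relation.ReflTransGen.refl
  | succ n ih =>
    intro x y h1 h2 h3 h4 h5
    have hy := y.1.2
    let y' : Fin K × Fin K := (⟨y.1.1 - 1, by omega⟩, y.2)
    have hy' : y'.1.1 = y.1.1 - 1 := rfl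
    have hy1 : y'.2 = y.2 := rfl
    refine (ih x y' h1 (hy1.trans h2) (by omega) h4 (by omega)).trans ?_
    refine Joined.single (e := ⟨(y', y), Or.inl ⟨by change y.1.1 - 1 + 1 = y.1.1; omega, rfl⟩⟩) ?_ rfl ?_ ?_
    · intro he
      exact hF _ he (hy1.trans h2) (by simp only; omega) (by simp only; omega)
    · exact hS y' (hy1.trans h2) (by omega) (by omega)
    · exact hS y h2 (by omega) h5

theorem draw {V E : Type} [Finite V] [Finite E] {D : Dig V E} {pos : E × Bool → ℕ}
    (h : NRep Set.univ (dend D) pos) (hL : ∀ p, pos p < 2 * Nat.card E) :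
    GMinor (und D) (grid (4 * (Nat.card V + Nat.card E) + 4)) := by
  classical
  obtain ⟨L, hLdef⟩ : ∃ L, L = 2 * Nat.card E := ⟨_, rfl⟩
  obtain ⟨K, hK⟩ : ∃ K, K = 4 * (Nat.card V + Nat.card E) + 4 := ⟨_, rfl⟩
  rw [← hLdef] at hL
  rw [← hK]
  have hinj : ∀ p q, pos p = pos q → p = q := fun p q => h.inj p q trivial trivial
  have hup : ∀ p q r s, pos p < pos q → pos q < pos r → pos r < pos s →
      p.1 = r.1 → q.1 = s.1 → p.1 = q.1 := fun p q r s =>
    h.up p trivial q trivial r trivial s trivial
  have hex : ∀ e : E, ∃ b : Bool, pos (e, b) < pos (e, !b) ∧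
      len pos e = pos (e, !b) - pos (e, b) := by
    intro e
    have hne : pos (e, true) ≠ pos (e, false) := by
      intro h1
      have := hinj _ _ h1
      simp at this
    rcases lt_or_gt_of_ne hne with h1 | h1
    · refine ⟨true, by simpa using h1, ?_⟩
      simp only [len, Bool.not_true]
      rw [max_eq_right h1.le, min_eq_left h1.le]
    · refine ⟨false, by simpa using h1, ?_⟩
      simp only [len, Bool.not_false]
      rw [max_eq_left h1.le, min_eq_right h1.le]
  choose b hb1 hb2 using hex
  have hlenL : ∀ e, len pos e < L := by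
    intro e
    have h1 := hL (e, !b e)
    have h2 := hb1 e
    have h3 := hb2 e
    omega
  -- the branch sets
  let φ := Finite.equivFin V
  let P : V → Fin K × Fin K → Prop := fun v z =>
    Own D pos L v z.1 z.2 ∨ ((¬ ∃ d, dend D d = v) ∧ z.2.1 = 0 ∧ z.1.1 = L + (φ v).1)
  have hOwnc : ∀ {v : V} {c r : ℕ}, Own D pos L v c r → c < L ∧ r < 2 * L ∧
      ∃ d, dend D d = v := by
    rintro v c r (⟨d, h1, h2, h3, h4⟩ | ⟨h1, d, d', h2, h3, h4, h5⟩ | ⟨d, h1, h2, h3, h4⟩)
    · have h5 := hL d
      have h6 := hlenL d.1
      exact ⟨by omega, by omega, d, h1⟩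
    · have h6 := hL d'
      exact ⟨by omega, by omega, d, h2⟩
    · have h5 := hL d
      have h6 := hlenL d.1
      exact ⟨by omega, by omega, d, h1⟩
  have hPu : ∀ {v v' : V} {z : Fin K × Fin K}, P v z → P v' z → v = v' := by
    rintro v v' z (h1 | ⟨h1, h2, h3⟩) (h4 | ⟨h4, h5, h6⟩)
    · exact own_unique h hL h1 h4
    · have := hOwnc h1
      omega
    · have := hOwnc h4
      omega
    · exact φ.injective (Fin.ext (by omega))
  let β : Fin K × Fin K → Option V := fun z => if h : ∃ v, P v z then some h.choose else none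
  have hβ : ∀ v z, β z = some v ↔ P v z := by
    intro v z
    constructor
    · intro h1
      by_cases h2 : ∃ v, P v z
      · simp only [β, dif_pos h2, Option.some.injEq] at h1
        rw [← h1]
        exact h2.choose_spec
      · simp [β, dif_neg h2] at h1
    · intro h1
      have h2 : ∃ v, P v z := ⟨v, h1⟩
      simp only [β, dif_pos h2, Option.some.injEq]
      exact hPu h2.choose_spec h1
  -- the edges
  have hlt1 : ∀ e, pos (e, b e) < K := by
    intro e
    have := hL (e, b e)
    omega
  have hlt2 : ∀ e, pos (e, b e) + 1 < K := by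
    intro e
    have := hL (e, b e)
    omega
  have hlt3 : ∀ e, L + len pos e < K := by
    intro e
    have := hlenL e
    omega
  let ι : E → GridE K := fun e =>
    ⟨((⟨pos (e, b e), hlt1 e⟩, ⟨L + len pos e, hlt3 e⟩),
      (⟨pos (e, b e) + 1, hlt2 e⟩, ⟨L + len pos e, hlt3 e⟩)), Or.inl ⟨rfl, rfl⟩⟩
  have hιF : ∀ e ∈ Set.range ι, e.1.1.1.1 + 1 = e.1.2.1.1 := by
    rintro e ⟨e', rfl⟩
    rfl
  refine ⟨β, ι, ?_, ?_, ?_, ?_⟩
  · intro e e' hee
    have h1 : (ι e).1.1.1.1 = (ι e').1.1.1.1 := by rw [hee]
    have h2 : pos (e, b e) = pos (e', b e') := h1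
    exact congrArg Prod.fst (hinj _ _ h2)
  · intro e
    have h1 : β (⟨pos (e, b e), hlt1 e⟩, ⟨L + len pos e, hlt3 e⟩) = some (dend D (e, b e)) := by
      rw [hβ]
      left
      left
      exact ⟨(e, b e), rfl, rfl, by simp only; omega, le_rfl⟩
    have h2 : β (⟨pos (e, b e) + 1, hlt2 e⟩, ⟨L + len pos e, hlt3 e⟩) =
        some (dend D (e, !b e)) := by
      rw [hβ]
      left
      right
      right
      refine ⟨(e, !b e), rfl, ?_, ?_, rfl⟩
      · simp only [Bool.not_not]
        omega
      · have := hb1 e
        simp only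
        omega
    change s(β _, β _) = s(some _, some _)
    rw [h1, h2]
    rcases hbe : b e
    · simp only [dend, Bool.not_false, if_true]
      exact Sym2.eq_swap
    · simp only [dend, Bool.not_true, if_true]
      rfl
  · intro v
    by_cases hv : ∃ d, dend D d = v
    · obtain ⟨d, hd⟩ := hv
      have h1 := hL d
      refine ⟨(⟨pos d, by omega⟩, ⟨L, by omega⟩), ?_⟩
      rw [hβ]
      left
      left
      exact ⟨d, hd, rfl, by simp only; omega, by simp only; omega⟩
    · have h1 := (φ v).2
      refine ⟨(⟨L + (φ v).1, by omega⟩, ⟨0, by omega⟩), ?_⟩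
      rw [hβ]
      right
      exact ⟨hv, rfl, rfl⟩
  · intro x y v hx hy
    rw [hβ] at hx hy
    by_cases hv : ∃ d, dend D d = v
    swap
    · have h1 : (x.2.1 = 0 ∧ x.1.1 = L + (φ v).1) := by
        rcases hx with hx | hx
        · exact absurd (hOwnc hx).2.2 hv
        · exact hx.2
      have h2 : (y.2.1 = 0 ∧ y.1.1 = L + (φ v).1) := by
        rcases hy with hy | hy
        · exact absurd (hOwnc hy).2.2 hv
        · exact hy.2
      have h3 : x = y := Prod.ext (Fin.ext (by omega)) (Fin.ext (by omega))
      rw [h3]
      exact Relation.ReflTransGen.refl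
    have hx' : Own D pos L v x.1 x.2 := by
      rcases hx with hx | hx
      · exact hx
      · exact absurd hv hx.1
    have hy' : Own D pos L v y.1 y.2 := by
      rcases hy with hy | hy
      · exact hy
      · exact absurd hv hy.1
    clear hx hy
    obtain ⟨a, a', ha, ha', haa, hsp⟩ := exists_sp D pos v hv
    have haL := hL a
    have haL' := hL a'
    -- the base cell
    let B : Fin K × Fin K := (⟨pos a, by omega⟩, ⟨L - sp D pos v, by omega⟩)
    have hBr : B.2.1 = L - sp D pos v := rfl
    have hBc : B.1.1 = pos a := rfl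
    have hbar : ∀ z : Fin K × Fin K, z.2.1 = L - sp D pos v → pos a ≤ z.1.1 → z.1.1 ≤ pos a' →
        Joined (grid K) (Set.range ι) {z | β z = some v} B z := by
      intro z hz1 hz2 hz3
      refine horiz B.2 (pos a) (pos a') ?_ ?_ (z.1.1 - pos a) B z rfl
        (Fin.ext (hz1.trans hBr.symm)) (by omega) le_rfl hz3
      · rintro e ⟨e', rfl⟩ h1 _ _
        have h2 : L + len pos e' = L - sp D pos v := congrArg Fin.val h1
        have h3 := hb1 e'
        have h4 := hb2 e'
        omega
      · intro w hw1 hw2 hw3
        change β w = some v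
        rw [hβ]
        left
        right
        left
        have h5 : w.2.1 = L - sp D pos v := congrArg Fin.val hw1
        exact ⟨by omega, a, a', ha, ha', hw2, hw3⟩
    have hleg : ∀ z : Fin K × Fin K,
        (∃ d, dend D d = v ∧ pos d = z.1.1 ∧ L ≤ z.2.1 + sp D pos v ∧
          z.2.1 ≤ L + len pos d.1) →
        Joined (grid K) (Set.range ι) {z | β z = some v} B z := by
      rintro z ⟨d, hd, hdc, hz1, hz2⟩
      have h1 := haa d hd
      have h2 := hbar (z.1, B.2) rfl (by simp only; omega) (by simp only; omega)
      refine h2.trans (vert hιF (z.2.1 - (L - sp D pos v)) _ z rfl (by simp only; omega) ?_)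
      intro w hw1 hw2 hw3
      change β w = some v
      rw [hβ]
      left
      left
      simp only at hw1 hw2
      refine ⟨d, hd, by rw [hdc, hw1], by omega, by omega⟩
    have harc : ∀ z : Fin K × Fin K,
        (∃ d, dend D d = v ∧ pos (d.1, !d.2) < z.1.1 ∧ z.1.1 ≤ pos d ∧
          z.2.1 = L + len pos d.1) →
        Joined (grid K) (Set.range ι) {z | β z = some v} B z := by
      rintro z ⟨d, hd, hz1, hz2, hz3⟩
      have hdL := hL d
      have hbd : b d.1 = !d.2 := by
        have h1 := hb1 d.1
        rcases hbb : b d.1 with _ | _ <;> rcases hdd : d.2 with _ | _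
        · exfalso
          rw [hbb] at h1
          have h2 : d = (d.1, false) := Prod.ext rfl hdd
          rw [hdd] at hz1
          rw [h2] at hz2
          simp only [Bool.not_false] at h1 hz1
          omega
        · rfl
        · rfl
        · exfalso
          rw [hbb] at h1
          have h2 : d = (d.1, true) := Prod.ext rfl hdd
          rw [hdd] at hz1
          rw [h2] at hz2
          simp only [Bool.not_true] at h1 hz1
          omega
      have hlen : len pos d.1 = pos d - pos (d.1, !d.2) := by
        have h1 := hb2 d.1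
        rw [hbd, Bool.not_not] at h1
        exact h1
      let C : Fin K × Fin K := (⟨pos d, by omega⟩, z.2)
      have hC := hleg C ⟨d, hd, rfl, by change L ≤ z.2.1 + _; omega,
        by change z.2.1 ≤ _; omega⟩
      refine hC.trans (Joined.symm ?_)
      refine horiz z.2 z.1.1 (pos d) ?_ ?_ (pos d - z.1.1) z C rfl rfl
        (by change pos d = _; omega) le_rfl le_rfl
      · rintro e ⟨e', rfl⟩ h1 h2 h3
        have h4 : L + len pos e' = z.2.1 := congrArg Fin.val h1
        change z.1.1 ≤ pos (e', b e') at h2
        change pos (e', b e') < pos d at h3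
        have h5 := hb1 e'
        have h6 := hb2 e'
        have h7 := hup (d.1, !d.2) (e', b e') d (e', !b e') (by omega) h3 (by omega) rfl rfl
        simp only at h7
        subst h7
        rw [hbd] at h2
        omega
      · intro w hw1 hw2 hw3
        change β w = some v
        rw [hβ]
        left
        right
        right
        exact ⟨d, hd, by omega, hw3, by rw [hw1]; exact hz3⟩
    have hall : ∀ z : Fin K × Fin K, Own D pos L v z.1 z.2 →
        Joined (grid K) (Set.range ι) {z | β z = some v} B z := by
      rintro z (h1 | h1 | h1)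
      · exact hleg z h1
      · obtain ⟨h2, d, d', hd, hd', h3, h4⟩ := h1
        have h5 := haa d hd
        have h6 := haa d' hd'
        exact hbar z (by omega) (by omega) (by omega)
      · exact harc z h1
    exact (hall x hx').symm.trans (hall y hy')

end Pool.Agent.Lib.MP_210493_lc
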