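import Pool.Agent.Lib.MP_210493_lc.DG.Basic

/-! Module PL-GridMono.  Smaller grids are minors of larger grids.

PROOF.  `β (i, j) = some (i, j)` if `i, j < k` and `none` otherwise; `ι e` = the same edge
(`Fin.castLE h` on the four coordinates); branch sets are single vertices. -/

namespace Pool.Agent.Lib.MP_210493_lc

/-- the embedding of the vertices -/
private def gmUp {k k' : ℕ} (h : k ≤ k') (p : Fin k × Fin k) : Fin k' × Fin k' :=
  (Fin.castLE h p.1, Fin.castLE h p.2)

/-- the partial inverse -/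
private def gmDown {k k' : ℕ} (p : Fin k' × Fin k') : Option (Fin k × Fin k) :=
  if h : p.1.1 < k ∧ p.2.1 < k then some (⟨p.1.1, h.1⟩, ⟨p.2.1, h.2⟩) else none

private theorem gmDown_up {k k' : ℕ} (h : k ≤ k') (p : Fin k × Fin k) :
    gmDown (gmUp h p) = some p := by
  unfold gmDown gmUp
  rw [dif_pos ⟨p.1.2, p.2.2⟩]
  rfl

private theorem gmDown_eq {k k' : ℕ} (h : k ≤ k') {x : Fin k' × Fin k'} {p : Fin k × Fin k}
    (hx : gmDown x = some p) : x = gmUp h p := by
  unfold gmDown at hx
  by_cases hc : x.1.1 < k ∧ x.2.1 < k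
  · rw [dif_pos hc] at hx
    have := Option.some.inj hx
    rw [← this]
    rfl
  · rw [dif_neg hc] at hx
    exact absurd hx (by simp)

theorem grid_mono {k k' : ℕ} (h : k ≤ k') : GMinor (grid k) (grid k') := by
  refine ⟨gmDown, fun e => ⟨(gmUp h e.1.1, gmUp h e.1.2), ?_⟩, ?_, ?_, ?_, ?_⟩
  · rcases e.2 with ⟨h1, h2⟩ | ⟨h1, h2⟩
    · left
      refine ⟨h1, ?_⟩
      show Fin.castLE h e.1.1.2 = Fin.castLE h e.1.2.2
      rw [h2]
    · right
      refine ⟨?_, h2⟩
      show Fin.castLE h e.1.1.1 = Fin.castLE h e.1.2.1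
      rw [h1]
  · intro e e' he
    have h1 := congrArg Subtype.val he
    have h2 : gmUp h e.1.1 = gmUp h e'.1.1 := congrArg Prod.fst h1
    have h3 : gmUp h e.1.2 = gmUp h e'.1.2 := congrArg Prod.snd h1
    have h4 : e.1.1 = e'.1.1 := by
      have := congrArg (gmDown (k := k)) h2
      rw [gmDown_up, gmDown_up] at this
      exact Option.some.inj this
    have h5 : e.1.2 = e'.1.2 := by
      have := congrArg (gmDown (k := k)) h3
      rw [gmDown_up, gmDown_up] at this
      exact Option.some.inj this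
    exact Subtype.ext (Prod.ext h4 h5)
  · intro e
    show Sym2.map gmDown s(gmUp h e.1.1, gmUp h e.1.2) = Sym2.map some s(e.1.1, e.1.2)
    rw [Sym2.map_mk, Sym2.map_mk, gmDown_up, gmDown_up]
  · intro v
    exact ⟨gmUp h v, gmDown_up h v⟩
  · intro x y v hx hy
    rw [gmDown_eq h hx, gmDown_eq h hy]
    exact Relation.ReflTransGen.refl

end Pool.Agent.Lib.MP_210493_lc
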