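import Pool.Agent.Lib.MP_210493_lc.PL.Defs

/-! Module PL-GridRep.  The grid has a noncrossing representation.

PROOF.  `D e = (e.1.1, e.1.2)`.  Write vertices as `(i, j)` (`i` = first coordinate).  An edge is
horizontal (`(i, j)` to `(i+1, j)`) or vertical (`(i, j)` to `(i, j+1)`).  With `B = 8 * N`:
horizontal: `pos (e, true) = B * j + 4 * i + 2`, `pos (e, false) = B * j + 4 * (i + 1)`;
vertical: `pos (e, true) = B * j + 4 * N + (N - 1 - i)`, `pos (e, false) = B * (j + 1) + 4 * i + 1`.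
So a dart at the vertex `(i, j)` has the position `B * j + 4 * i` (west), `+ 1` (south), `+ 2` (east)
or `B * j + 4 * N + (N - 1 - i)` (north), and row `j` of the grid occupies the interval
`[B * j, B * (j+1))`.  Injective: the position determines `j` (quotient by `B`), the kind, and `i`.
UP (edges do not cross): `p < q < r < s`, `p, r` darts of `e`, `q, s` darts of `f ≠ e`.  If `e` is
horizontal its two positions differ by 2 and there is no dart between them (a position between
would be `≡ 3 mod 4` in the lower part `< 4 N` of the row); same for `f` (`r` between `q` and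
`s`).  So both are vertical: `p` = north dart of `(i, j)`, `r` = south dart of `(i, j+1)`, `q` = north
dart of `(i', j')`, `s` = south dart of `(i', j'+1)`.  `p < q < r` forces `j = j'`, then `p < q` gives
`i' < i` and `r < s` gives `i < i'`: contradiction.
LOW (vertices do not cross): `p < q < r < s`, `p, r` at `(i, j)`, `q, s` at `(i', j')`.  All four are in
the same row (`p < q < r` and rows are intervals): `j = j'`.  If `i ≠ i'`: the lower darts of a vertex
are consecutive, so `p` is a lower and `r` the north dart of `(i, j)`; `s > r` is the north dart of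
`(i', j)`, so `i' < i`; `q ≠ s` is a lower dart of `(i', j)` and `p < q` gives `i ≤ i'`:
contradiction. -/

namespace Pool.Agent.Lib.MP_210493_lc

/-- different rows are different intervals -/
private theorem gr_lex {B j o j' o' : ℕ} (_h : o < B) (h' : o' < B)
    (hlt : B * j + o < B * j' + o') : j < j' ∨ (j = j' ∧ o < o') := by
  rcases lt_trichotomy j j' with hj | hj | hj
  · exact Or.inl hj
  · subst hj
    exact Or.inr ⟨rfl, by omega⟩
  · exfalso
    have h2 := Nat.mul_le_mul_left B (Nat.succ_le_of_lt hj)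
    rw [Nat.mul_succ] at h2
    omega

private theorem gr_eq {B j o j' o' : ℕ} (h : o < B) (h' : o' < B)
    (he : B * j + o = B * j' + o') : j = j' ∧ o = o' := by
  rcases lt_trichotomy j j' with hj | hj | hj
  · exfalso
    have h2 := Nat.mul_le_mul_left B (Nat.succ_le_of_lt hj)
    rw [Nat.mul_succ] at h2
    omega
  · subst hj
    exact ⟨rfl, by omega⟩
  · exfalso
    have h2 := Nat.mul_le_mul_left B (Nat.succ_le_of_lt hj)
    rw [Nat.mul_succ] at h2
    omega

/-- position of a dart inside its row -/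
private def gOff {N : ℕ} (p : GridE N × Bool) : ℕ :=
  if p.1.1.1.1.1 + 1 = p.1.1.2.1.1 then
    (if p.2 then 4 * p.1.1.1.1.1 + 2 else 4 * p.1.1.2.1.1)
  else
    (if p.2 then 4 * N + (N - 1 - p.1.1.1.1.1) else 4 * p.1.1.2.1.1 + 1)

/-- row of a dart -/
private def gRow {N : ℕ} (p : GridE N × Bool) : ℕ :=
  if p.2 then p.1.1.1.2.1 else p.1.1.2.2.1

private def gPos {N : ℕ} (p : GridE N × Bool) : ℕ := 8 * N * gRow p + gOff p

private theorem gEdge {N : ℕ} (e : GridE N) :
    ((e.1.1.1.1 + 1 = e.1.2.1.1 ∧ e.1.1.2.1 = e.1.2.2.1) ∨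
      (e.1.1.1.1 = e.1.2.1.1 ∧ e.1.1.2.1 + 1 = e.1.2.2.1)) ∧
    e.1.1.1.1 < N ∧ e.1.1.2.1 < N ∧ e.1.2.1.1 < N ∧ e.1.2.2.1 < N := by
  refine ⟨?_, e.1.1.1.2, e.1.1.2.2, e.1.2.1.2, e.1.2.2.2⟩
  rcases e.2 with ⟨h1, h2⟩ | ⟨h1, h2⟩
  · exact Or.inl ⟨h1, congrArg Fin.val h2⟩
  · exact Or.inr ⟨congrArg Fin.val h1, h2⟩

private theorem gTrue {N : ℕ} (e : GridE N) :
    gRow (e, true) = e.1.1.2.1 ∧
      ((e.1.1.1.1 + 1 = e.1.2.1.1 ∧ gOff (e, true) = 4 * e.1.1.1.1 + 2) ∨
        (e.1.1.1.1 = e.1.2.1.1 ∧ gOff (e, true) = 4 * N + (N - 1 - e.1.1.1.1))) := by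
  refine ⟨by simp [gRow], ?_⟩
  have h := gEdge e
  by_cases hh : e.1.1.1.1 + 1 = e.1.2.1.1
  · left
    exact ⟨hh, by simp [gOff, hh]⟩
  · right
    refine ⟨by omega, by simp [gOff, hh]⟩

private theorem gFalse {N : ℕ} (e : GridE N) :
    gRow (e, false) = e.1.2.2.1 ∧
      ((e.1.1.1.1 + 1 = e.1.2.1.1 ∧ gOff (e, false) = 4 * e.1.2.1.1) ∨
        (e.1.1.1.1 = e.1.2.1.1 ∧ gOff (e, false) = 4 * e.1.2.1.1 + 1)) := by
  refine ⟨by simp [gRow], ?_⟩
  have h := gEdge e
  by_cases hh : e.1.1.1.1 + 1 = e.1.2.1.1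
  · left
    exact ⟨hh, by simp [gOff, hh]⟩
  · right
    refine ⟨by omega, by simp [gOff, hh]⟩

private theorem gOff_lt {N : ℕ} (p : GridE N × Bool) : gOff p < 8 * N := by
  obtain ⟨e, t⟩ := p
  have h := gEdge e
  cases t
  · have h1 := gFalse e
    omega
  · have h1 := gTrue e
    omega

private theorem gPos_lt {N : ℕ} {p q : GridE N × Bool} (h : gPos p < gPos q) :
    gRow p < gRow q ∨ (gRow p = gRow q ∧ gOff p < gOff q) :=
  gr_lex (gOff_lt p) (gOff_lt q) h

private theorem gPos_eq {N : ℕ} {p q : GridE N × Bool} (h : gPos p = gPos q) :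
    gRow p = gRow q ∧ gOff p = gOff q :=
  gr_eq (gOff_lt p) (gOff_lt q) h

/-- the end of a dart in the orientation of the grid -/
private def gDig (N : ℕ) : Dig (Fin N × Fin N) (GridE N) := fun e => (e.1.1, e.1.2)

private theorem gDart {N : ℕ} (p : GridE N × Bool) :
    gRow p = (dend (gDig N) p).2.1 ∧ (dend (gDig N) p).1.1 < N ∧
      ((4 * (dend (gDig N) p).1.1 ≤ gOff p ∧ gOff p ≤ 4 * (dend (gDig N) p).1.1 + 2) ∨
        gOff p = 4 * N + (N - 1 - (dend (gDig N) p).1.1)) := by
  refine ⟨?_, (dend (gDig N) p).1.2, ?_⟩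
  · obtain ⟨e, t⟩ := p
    cases t <;> simp [gRow, dend, gDig]
  · obtain ⟨e, t⟩ := p
    have h := gEdge e
    cases t
    · have h1 := gFalse e
      have h2 : (dend (gDig N) (e, false)).1.1 = e.1.2.1.1 := by simp [dend, gDig]
      rw [h2]
      omega
    · have h1 := gTrue e
      have h2 : (dend (gDig N) (e, true)).1.1 = e.1.1.1.1 := by simp [dend, gDig]
      rw [h2]
      omega

private theorem gInj {N : ℕ} (p q : GridE N × Bool) (h : gPos p = gPos q) : p = q := by
  obtain ⟨hr, ho⟩ := gPos_eq h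
  obtain ⟨e, t⟩ := p
  obtain ⟨f, u⟩ := q
  have he := gEdge e
  have hf := gEdge f
  have key : ∀ (h1 : e.1.1.1.1 = f.1.1.1.1) (h2 : e.1.1.2.1 = f.1.1.2.1)
      (h3 : e.1.2.1.1 = f.1.2.1.1) (h4 : e.1.2.2.1 = f.1.2.2.1), e = f := fun h1 h2 h3 h4 =>
    Subtype.ext (Prod.ext (Prod.ext (Fin.ext h1) (Fin.ext h2)) (Prod.ext (Fin.ext h3) (Fin.ext h4)))
  cases t <;> cases u
  · have h1 := gFalse e
    have h2 := gFalse f
    rw [key (by omega) (by omega) (by omega) (by omega)]
  · exfalso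
    have h1 := gFalse e
    have h2 := gTrue f
    omega
  · exfalso
    have h1 := gTrue e
    have h2 := gFalse f
    omega
  · have h1 := gTrue e
    have h2 := gTrue f
    rw [key (by omega) (by omega) (by omega) (by omega)]

private theorem gUp {N : ℕ} (e f : GridE N) (t1 t2 t3 t4 : Bool)
    (h1 : gPos (e, t1) < gPos (f, t2)) (h2 : gPos (f, t2) < gPos (e, t3))
    (h3 : gPos (e, t3) < gPos (f, t4)) : False := by
  have a1 := gPos_lt h1
  have a2 := gPos_lt h2
  have a3 := gPos_lt h3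
  have he := gEdge e
  have hf := gEdge f
  have e1 := gTrue e
  have e2 := gFalse e
  have f1 := gTrue f
  have f2 := gFalse f
  have d13 : t1 ≠ t3 := by
    intro hh
    subst hh
    omega
  have d24 : t2 ≠ t4 := by
    intro hh
    subst hh
    omega
  cases t1 <;> cases t3 <;> cases t2 <;> cases t4 <;> first | (exact d13 rfl) | (exact d24 rfl) | omega

private theorem gLow {N : ℕ} (p q r s : GridE N × Bool)
    (h1 : gPos p < gPos q) (h2 : gPos q < gPos r) (h3 : gPos r < gPos s)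
    (hpr : dend (gDig N) p = dend (gDig N) r) (hqs : dend (gDig N) q = dend (gDig N) s) :
    dend (gDig N) p = dend (gDig N) q := by
  have a1 := gPos_lt h1
  have a2 := gPos_lt h2
  have a3 := gPos_lt h3
  have dp := gDart p
  have dq := gDart q
  have dr := gDart r
  have ds := gDart s
  rw [← hpr] at dr
  rw [← hqs] at ds
  apply Prod.ext <;> apply Fin.ext <;> omega

theorem planarG_grid (N : ℕ) : PlanarG (grid N) := by
  refine ⟨gDig N, rfl, gPos, ?_, ?_, ?_⟩
  · intro p q _ _ h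
    exact gInj p q h
  · rintro ⟨e, t1⟩ _ ⟨f, t2⟩ _ ⟨e', t3⟩ _ ⟨f', t4⟩ _ h1 h2 h3 hpr hqs
    exfalso
    dsimp only at hpr hqs
    subst hpr
    subst hqs
    exact gUp e f t1 t2 t3 t4 h1 h2 h3
  · intro p _ q _ r _ s _ h1 h2 h3 hpr hqs
    exact gLow p q r s h1 h2 h3 hpr hqs

end Pool.Agent.Lib.MP_210493_lc
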