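import Pool.Agent.Lib.MP_210493_lc.PL.Closure
import Pool.Agent.Lib.MP_210493_lc.PL.GridRep
import Pool.Agent.Lib.MP_210493_lc.PL.Draw
import Pool.Agent.Lib.MP_210493_lc.PL.GridMono

/-! A minor of some grid is a minor of a small grid. -/

namespace Pool.Agent.Lib.MP_210493_lc

theorem gminor_small_grid {V E : Type} [Finite V] [Finite E] {G : Gra V E} {N n : ℕ}
    (h : GMinor G (grid N)) (hn : Nat.card V + Nat.card E ≤ n) : GMinor G (grid (4 * n + 4)) := by
  obtain ⟨D, hD, pos, hpos⟩ := (planarG_grid N).minor h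
  obtain ⟨pos', h1, h2⟩ := normalize hpos
  have h3 := draw h1 h2
  rw [hD] at h3
  exact h3.trans (grid_mono (by omega))

end Pool.Agent.Lib.MP_210493_lc
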