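import Pool.Agent.Lib.MP_210493_lc.DG.Final
import Pool.Agent.Lib.MP_210493_lc.PL.Small

/-! The planar case: an absolute bound in terms of the sizes of the excluded digraphs. -/

namespace Pool.Agent.Lib.MP_210493_lc

theorem main_planar : ∃ g : ℕ → ℕ, Primrec g ∧
    ∀ (n : ℕ) (A : Set Code), (∀ H ∈ A, H.size ≤ n) →
    (∃ H ∈ A, ∃ k, GMinor (und H.arc) (grid k)) →
    ∀ (V E : Type) [Finite V] [Finite E] (G : Gra V E), Excluded A G →
      Nat.card V + Nat.card E ≤ g n := by
  obtain ⟨f, hf, h⟩ := main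
  refine ⟨fun n => f n (10 * (4 * n + 4) + 1), ?_, ?_⟩
  · have h1 : Primrec fun n : ℕ => 10 * (4 * n + 4) + 1 :=
      Primrec.nat_add.comp (Primrec.nat_mul.comp (Primrec.const 10)
        (Primrec.nat_add.comp (Primrec.nat_mul.comp (Primrec.const 4) Primrec.id)
          (Primrec.const 4))) (Primrec.const 1)
    exact hf.comp Primrec.id h1
  · rintro n A hA ⟨H, hH, k, hk⟩ V E _ _ G hG
    refine (h n A hA V E G hG (4 * n + 4)).2 ⟨H, hH, gminor_small_grid hk ?_⟩
    have := hA H hH
    simpa [Code.size] using this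

end Pool.Agent.Lib.MP_210493_lc
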