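import Pool.Agent.Lib.MP_210493_lc.PL.Rot

/-! Module PL-Merge.  Contraction of an edge in a noncrossing representation.

PROOF.  Let `x = (e, true)`, `y = (e, false)`.  If `ℓ x = ℓ y` then `ℓ'` and `ℓ` have the same
classes on `T \ {e}`, take `pos' = pos`.  Otherwise, by `rotate`, assume that `x` is first:
`pos x < pos p` for all other darts `p` of `T`.  Below all darts are darts of `T`; write `p < q` for
`pos p < pos q`.  `B1` = darts with label `ℓ x`, `B2` = darts with label `ℓ y`.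
`W = {d | no c ∈ B1 with d ≤ c < y, and no c ∈ B1 with y < c ≤ d}` (the gap of `B1` which
contains `y`; `y ∈ W`, `W ∩ B1 = ∅`), `U` = the other darts (so `B1 ⊆ U`).
FACT 1: every class `Q ≠ B1` of `ℓ` is inside `W` or inside `U`.  Proof: `q ∈ W`, `q' ∈ U`, both
in `Q` (so `q' ∉ B1`).  There is `c ∈ B1` with `q' < c < y` or `y < c < q'`.  In the first case
`c < q` (otherwise `q ≤ c < y`), so `x < q' < c < q` with `x, c ∈ B1`, `q', q ∈ Q`: crossing.  In the
second case `q < c`, so `x < q < c < q'`: crossing.  (If `Q = B1` we are done.)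
So `B2 ⊆ W`.
NEW POSITIONS.  `M` larger than all positions; `pos' d = M * pos d` for `d ∈ W`,
`pos' d = M * pos y + pos d` for `d ∈ U` (`d ≠ x`, so `0 < pos d < M`).  I.e. the new order is the old
one on `W` and the old one on `U \ {x}`, and all of `U \ {x}` is put at the place of `y`.
For `d ∈ W \ {y}`, `u ∈ U \ {x}`: `pos' d < pos' u ↔ d < y`.  Injective: clear.
UPPER: let `p < q < r < s` in the new order, `p, r` the darts of an edge `f`, `q, s` of an edge
`g`, `f ≠ g`, both `≠ e`.  Since `f`, `g` do not cross `e` in the old order (`x` is first), both darts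
of `f` are `< y` or both are `> y`, same for `g`.  If `f` is below `y` and `g` above (or conversely):
a dart `< y` in `U` lies before all darts `> y`?  FACT 2: new order = (darts of `W` that are `< y`),
(darts of `U` that are `< y`), (darts of `U` that are `> y`), (darts of `W` that are `> y`): so the
darts `< y` come before the darts `> y` in the new order, and `p < q < r < s` is impossible.
If both are below `y`: on the darts `< y` the old order is: those in `U` first, then those in `W`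
(FACT 3: `u ∈ U`, `w ∈ W`, both `< y`, then `u < w`: there is `c ∈ B1` with `u ≤ c < y` and then
`c < w`), and the new one is `W` first, then `U`; so `(p, q, r, s)` is, according to the number
(0 to 4) of the elements in `W`, a rotation of the old order, and a rotation of a crossing
quadruple is crossing: contradiction.  Both above `y`: old order `W` first, then `U`; new order
`U` first, then `W`: same.
LOWER: `p < q < r < s` in the new order, `ℓ' p = ℓ' r`, `ℓ' q = ℓ' s`; suppose `ℓ' p ≠ ℓ' q`.  By `hℓ`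
a class of `ℓ'` is a class of `ℓ` or `B1 ∪ B2` (without `x`, `y`).
(a) neither is `B1 ∪ B2`: both are inside `W` or `U` (FACT 1).  Same part: old crossing.
Different parts: impossible since `U` is an interval of the new order.
(b) `p, r ∈ B1 ∪ B2`, `q, s ∈ Q`.  If `Q ⊆ U`: `r` is between, so `r ∈ U`, `r ∈ B1`; if `p ∈ B1`
then `p < q < r < s` is an old crossing; if `p ∈ B2` then `x < q < r < s` is one.
If `Q ⊆ W`: `p, r ∈ B2`: old crossing; `p ∈ B1, r ∈ B2`: then `y < q` (old) and `y < q < r < s` is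
an old crossing; `p ∈ B2, r ∈ B1`: `p < q < y < s` is an old crossing; `p, r ∈ B1` is impossible
(`q` would be in `U`).
(c) `q, s ∈ B1 ∪ B2`, `p, r ∈ Q`.  If `Q ⊆ U`: `q ∈ U`, `q ∈ B1`; `s ∈ B1`: old crossing;
`s ∈ B2`: `x < p < q < r` is an old crossing.  If `Q ⊆ W`: `q, s ∈ B2`: old crossing;
`q ∈ B1, s ∈ B2`: `p < y < r < s` is one; `q ∈ B2, s ∈ B1`: `p < q < r < y` is one;
`q, s ∈ B1` impossible. -/

namespace Pool.Agent.Lib.MP_210493_lc

private theorem merge_aux {E X X' : Type} [Finite E] {T : Set E} {ℓ : E × Bool → X}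
    {pos : E × Bool → ℕ} (h : NRep T ℓ pos) (e : E) (he : e ∈ T)
    (hfst : ∀ p, p.1 ∈ T → p ≠ (e, true) → pos (e, true) < pos p)
    (hxy : ℓ (e, true) ≠ ℓ (e, false)) (ℓ' : E × Bool → X')
    (hℓ : ∀ p q, p.1 ∈ T → q.1 ∈ T → p.1 ≠ e → q.1 ≠ e → (ℓ' p = ℓ' q ↔
      (ℓ p = ℓ q ∨ (ℓ p = ℓ (e, true) ∧ ℓ q = ℓ (e, false)) ∨
        (ℓ p = ℓ (e, false) ∧ ℓ q = ℓ (e, true))))) :
    ∃ pos', NRep (T \ {e}) ℓ' pos' := by
  classical
  obtain ⟨M, hM⟩ : ∃ M, ∀ p : E × Bool, pos p < M := by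
    obtain ⟨M, hM⟩ := (Set.finite_range pos).bddAbove
    exact ⟨M + 1, fun p => Nat.lt_succ_of_le (hM ⟨p, rfl⟩)⟩
  generalize hx : (e, true) = x at *
  generalize hy : (e, false) = y at *
  have hxT : x.1 ∈ T := by rw [← hx]; exact he
  have hyT : y.1 ∈ T := by rw [← hy]; exact he
  have hx1 : x.1 = e := by rw [← hx]
  have hy1 : y.1 = e := by rw [← hy]
  have hyx : y ≠ x := fun h => hxy (by rw [h])
  -- positions of the other darts
  have hne : ∀ d, d.1 ∈ T → d.1 ≠ e → pos d ≠ pos y ∧ pos x < pos d := by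
    intro d hd hde
    refine ⟨fun h1 => hde ?_, hfst d hd ?_⟩
    · rw [h.inj d y hd hyT h1, hy1]
    · intro h1
      exact hde (by rw [h1, hx1])
  obtain ⟨Wp, hWp⟩ : ∃ Wp : E × Bool → Prop, ∀ d, Wp d ↔ ∀ c, c.1 ∈ T → ℓ c = ℓ x →
      ¬ (pos d ≤ pos c ∧ pos c < pos y) ∧ ¬ (pos y < pos c ∧ pos c ≤ pos d) :=
    ⟨_, fun d => Iff.rfl⟩
  have hnW : ∀ d, ¬ Wp d → ∃ c, c.1 ∈ T ∧ ℓ c = ℓ x ∧
      ((pos d ≤ pos c ∧ pos c < pos y) ∨ (pos y < pos c ∧ pos c ≤ pos d)) := by
    intro d hd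
    rw [hWp] at hd
    push Not at hd
    obtain ⟨c, hc, hc', h1⟩ := hd
    refine ⟨c, hc, hc', ?_⟩
    by_cases h2 : pos d ≤ pos c ∧ pos c < pos y
    · exact Or.inl h2
    · exact Or.inr (h1 (fun h3 => not_lt.1 (fun h4 => h2 ⟨h3, h4⟩)))
  have hWy : Wp y := by
    rw [hWp]
    intro c _ _
    omega
  have F1 : ∀ q q', q.1 ∈ T → q'.1 ∈ T → ℓ q = ℓ q' → ℓ q ≠ ℓ x → Wp q → Wp q' := by
    intro q q' hq hq' hqq hqx hW
    by_contra hU
    obtain ⟨c, hc, hcx, h1⟩ := hnW q' hU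
    have hcq : pos q' ≠ pos c := by
      intro h2
      have := h.inj q' c hq' hc h2
      exact hqx (by rw [hqq, this, hcx])
    have h3 := (hWp q).1 hW c hc hcx
    have hq'x : pos x < pos q' := hfst q' hq' (fun h2 => hqx (by rw [hqq, h2]))
    have hqx' : pos x < pos q := hfst q hq (fun h2 => hqx (by rw [h2]))
    rcases h1 with h1 | h1
    · have := h.low x hxT q' hq' c hc q hq hq'x (by omega) (by omega) hcx.symm hqq.symm
      exact hqx (by rw [hqq, this])
    · have := h.low x hxT q hq c hc q' hq' hqx' (by omega) (by omega) hcx.symm hqq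
      exact hqx this.symm
  have FB1 : ∀ d, d.1 ∈ T → ℓ d = ℓ x → ¬ Wp d := by
    intro d hd hdx hW
    have h1 := (hWp d).1 hW d hd hdx
    have h2 : pos d ≠ pos y := fun h2 => hxy (by rw [← hdx, h.inj d y hd hyT h2])
    omega
  have FB2 : ∀ d, d.1 ∈ T → ℓ d = ℓ y → Wp d := fun d hd hdy =>
    F1 y d hyT hd hdy.symm (fun h1 => hxy h1.symm) hWy
  have F3 : ∀ u w, ¬ Wp u → Wp w → pos u < pos y → pos w < pos y → pos u < pos w := by
    intro u w hu hw h1 h2
    obtain ⟨c, hc, hcx, h3⟩ := hnW u hu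
    have h4 := (hWp w).1 hw c hc hcx
    omega
  have F4 : ∀ u w, ¬ Wp u → Wp w → pos y < pos u → pos y < pos w → pos w < pos u := by
    intro u w hu hw h1 h2
    obtain ⟨c, hc, hcx, h3⟩ := hnW u hu
    have h4 := (hWp w).1 hw c hc hcx
    omega
  obtain ⟨pos', hW', hU'⟩ : ∃ pos' : E × Bool → ℕ, (∀ d, Wp d → pos' d = M * pos d) ∧
      ∀ d, ¬ Wp d → pos' d = M * pos y + pos d :=
    ⟨fun d => if Wp d then M * pos d else M * pos y + pos d, fun d hd => if_pos hd,
      fun d hd => if_neg hd⟩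
  have hlt : ∀ a b : ℕ, M * a < M * b → a < b := fun a b hab => lt_of_mul_lt_mul_left hab (Nat.zero_le _)
  have hle : ∀ a b : ℕ, a ≤ b → M * a ≤ M * b := fun a b hab => Nat.mul_le_mul_left _ hab
  have hWU : ∀ a u : ℕ, u < M → M * a < M * pos y + u → a ≤ pos y := by
    intro a u hu h1
    by_contra h2
    have := hle (pos y + 1) a (by omega)
    rw [mul_add, mul_one] at this
    omega
  have cmp : ∀ d d', d.1 ∈ T → d.1 ≠ e → d'.1 ∈ T → d'.1 ≠ e → pos' d < pos' d' →
      (Wp d ∧ Wp d' ∧ pos d < pos d') ∨ (¬ Wp d ∧ ¬ Wp d' ∧ pos d < pos d') ∨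
      (Wp d ∧ ¬ Wp d' ∧ pos d < pos y) ∨ (¬ Wp d ∧ Wp d' ∧ pos y < pos d') := by
    intro d d' hd hde hd' hde' hlt'
    by_cases h1 : Wp d <;> by_cases h2 : Wp d'
    · rw [hW' d h1, hW' d' h2] at hlt'
      exact Or.inl ⟨h1, h2, hlt _ _ hlt'⟩
    · rw [hW' d h1, hU' d' h2] at hlt'
      have := hWU _ _ (hM d') hlt'
      have := (hne d hd hde).1
      exact Or.inr (Or.inr (Or.inl ⟨h1, h2, by omega⟩))
    · rw [hU' d h1, hW' d' h2] at hlt'
      exact Or.inr (Or.inr (Or.inr ⟨h1, h2, hlt _ _ (by omega)⟩))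
    · rw [hU' d h1, hU' d' h2] at hlt'
      exact Or.inr (Or.inl ⟨h1, h2, by omega⟩)
  refine ⟨pos', ?_, ?_, ?_⟩
  · -- injectivity
    rintro p q ⟨hp, hpe⟩ ⟨hq, hqe⟩ hpq
    have hpe' : p.1 ≠ e := hpe
    have hqe' : q.1 ≠ e := hqe
    have hM0 : 0 < M := lt_of_le_of_lt (Nat.zero_le _) (hM p)
    have key : ∀ d d', d'.1 ∈ T → d'.1 ≠ e → Wp d → ¬ Wp d' → pos' d = pos' d' → False := by
      intro d d' h1 h2 h3 h4 h5
      rw [hW' d h3, hU' d' h4] at h5
      have h6 := (hne d' h1 h2).2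
      rcases le_or_gt (pos d) (pos y) with h7 | h7
      · have := hle _ _ h7
        omega
      · have := hle (pos y + 1) (pos d) h7
        rw [mul_add, mul_one] at this
        have := hM d'
        omega
    by_cases h1 : Wp p <;> by_cases h2 : Wp q
    · rw [hW' p h1, hW' q h2] at hpq
      exact h.inj p q hp hq (Nat.eq_of_mul_eq_mul_left hM0 hpq)
    · exact (key p q hq hqe' h1 h2 hpq).elim
    · exact (key q p hp hpe' h2 h1 hpq.symm).elim
    · rw [hU' p h1, hU' q h2] at hpq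
      exact h.inj p q hp hq (by omega)
  · -- upper half plane
    rintro p ⟨hp, hpe⟩ q ⟨hq, hqe⟩ r ⟨hr, hre⟩ s ⟨hs, hse⟩ h1 h2 h3 hpr hqs
    have hpe' : p.1 ≠ e := hpe
    have hqe' : q.1 ≠ e := hqe
    have hre' : r.1 ≠ e := hre
    have hse' : s.1 ≠ e := hse
    have c1 := cmp p q hp hpe' hq hqe' h1
    have c2 := cmp q r hq hqe' hr hre' h2
    have c3 := cmp r s hr hre' hs hse' h3
    have side : ∀ a b : E × Bool, a.1 ∈ T → b.1 ∈ T → a.1 ≠ e → a.1 = b.1 → pos a < pos y →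
        pos b < pos y := by
      intro a b ha hb hae hab h4
      by_contra h5
      have h6 := (hne b hb (by rw [← hab]; exact hae)).1
      have h7 := h.up x hxT a ha y hyT b hb (hne a ha hae).2 h4 (by omega) (by rw [hx1, hy1]) hab
      exact hae (by rw [← h7, hx1])
    have s1 := side p r hp hr hpe' hpr
    have s2 := side r p hr hp hre' hpr.symm
    have s3 := side q s hq hs hqe' hqs
    have s4 := side s q hs hq hse' hqs.symm
    have n1 := (hne p hp hpe').1
    have n2 := (hne q hq hqe').1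
    have n3 := (hne r hr hre').1
    have n4 := (hne s hs hse').1
    have u1 := h.up p hp q hq r hr s hs
    have u2 := h.up q hq r hr s hs p hp
    have u3 := h.up r hr s hs p hp q hq
    have u4 := h.up s hs p hp q hq r hr
    clear hW' hU' hlt hle hWU cmp F1 FB1 FB2 hWp hnW hM hne hℓ side
    rcases lt_or_gt_of_ne n1 with m1 | m1 <;> rcases lt_or_gt_of_ne n2 with m2 | m2
    · have m3 := s1 m1
      have m4 := s3 m2
      grind
    · have m3 := s1 m1
      grind
    · have m4 := s3 m2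
      grind
    · grind
  · -- lower half plane
    rintro p ⟨hp, hpe⟩ q ⟨hq, hqe⟩ r ⟨hr, hre⟩ s ⟨hs, hse⟩ h1 h2 h3 hpr hqs
    have hpe' : p.1 ≠ e := hpe
    have hqe' : q.1 ≠ e := hqe
    have hre' : r.1 ≠ e := hre
    have hse' : s.1 ≠ e := hse
    have c1 := cmp p q hp hpe' hq hqe' h1
    have c2 := cmp q r hq hqe' hr hre' h2
    have c3 := cmp r s hr hre' hs hse' h3
    rw [hℓ p r hp hr hpe' hre'] at hpr
    rw [hℓ q s hq hs hqe' hse'] at hqs
    rw [hℓ p q hp hq hpe' hqe']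
    have g1 := F1 p r hp hr
    have g2 := F1 r p hr hp
    have g3 := F1 q s hq hs
    have g4 := F1 s q hs hq
    have b1 := FB1 p hp
    have b2 := FB1 q hq
    have b3 := FB1 r hr
    have b4 := FB1 s hs
    have d1 := FB2 p hp
    have d2 := FB2 q hq
    have d3 := FB2 r hr
    have d4 := FB2 s hs
    have l1 := h.low p hp q hq r hr s hs
    have l2 := h.low x hxT q hq r hr s hs
    have l3 := h.low y hyT q hq r hr s hs
    have l4 := h.low p hp q hq y hyT s hs
    have l5 := h.low x hxT p hp q hq r hr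
    have l6 := h.low p hp y hyT r hr s hs
    have l7 := h.low p hp q hq r hr y hyT
    have x1 := (hne p hp hpe').2
    have x2 := (hne q hq hqe').2
    clear hW' hU' hlt hle hWU cmp F1 FB1 FB2 hWp hnW hM hne hℓ F3 F4
    grind

theorem merge {E X X' : Type} [Finite E] {T : Set E} {ℓ : E × Bool → X} {pos : E × Bool → ℕ}
    (h : NRep T ℓ pos) (e : E) (he : e ∈ T) (ℓ' : E × Bool → X')
    (hℓ : ∀ p q, p.1 ∈ T → q.1 ∈ T → p.1 ≠ e → q.1 ≠ e → (ℓ' p = ℓ' q ↔
      (ℓ p = ℓ q ∨ (ℓ p = ℓ (e, true) ∧ ℓ q = ℓ (e, false)) ∨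
        (ℓ p = ℓ (e, false) ∧ ℓ q = ℓ (e, true))))) :
    ∃ pos', NRep (T \ {e}) ℓ' pos' := by
  by_cases hxy : ℓ (e, true) = ℓ (e, false)
  · refine ⟨pos, fun p q hp hq => h.inj p q hp.1 hq.1, ?_, ?_⟩
    · rintro p ⟨hp, hpe⟩ q ⟨hq, hqe⟩ r ⟨hr, hre⟩ s ⟨hs, hse⟩
      exact h.up p hp q hq r hr s hs
    · rintro p ⟨hp, hpe⟩ q ⟨hq, hqe⟩ r ⟨hr, hre⟩ s ⟨hs, hse⟩ h1 h2 h3 hpr hqs
      have hpe' : p.1 ≠ e := hpe
      have hqe' : q.1 ≠ e := hqe
      have hre' : r.1 ≠ e := hre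
      have hse' : s.1 ≠ e := hse
      rw [hℓ p r hp hr hpe' hre'] at hpr
      rw [hℓ q s hq hs hqe' hse'] at hqs
      rw [hℓ p q hp hq hpe' hqe']
      refine Or.inl (h.low p hp q hq r hr s hs h1 h2 h3 ?_ ?_)
      · rcases hpr with h4 | ⟨h4, h5⟩ | ⟨h4, h5⟩
        · exact h4
        · rw [h4, h5, hxy]
        · rw [h4, h5, hxy]
      · rcases hqs with h4 | ⟨h4, h5⟩ | ⟨h4, h5⟩
        · exact h4
        · rw [h4, h5, hxy]
        · rw [h4, h5, hxy]
  · obtain ⟨pos₁, h₁, hfst⟩ := rotate h (e, true) he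
    exact merge_aux h₁ e he hfst hxy ℓ' hℓ

end Pool.Agent.Lib.MP_210493_lc
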