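import Pool.Agent.Lib.MP_210493_lc.PL.Defs

/-! Module PL-Own.  The drawing in the grid: cells owned by a vertex.

The darts have positions `< L` (columns).  Row `L` is the axis.  For an edge `e` the length is
`len pos e = |pos (e, true) - pos (e, false)|`; the arc of `e` has its horizontal bar in row
`L + len pos e`.  For a vertex `v` the span `sp v` is (largest minus smallest position of a dart at
`v`); its bar is in row `L - sp v`.
`Own D pos L v c r`: the cell `(c, r)` belongs to `v`:
 (leg) there is a dart `d` at `v` in column `c`, and `L ≤ r + sp v`, `r ≤ L + len pos d.1`;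
 (bar) `r + sp v = L` and there are darts `d, d'` at `v` with `pos d ≤ c ≤ pos d'`;
 (arc) there is a dart `d` at `v` such that the other dart `d'` of the same edge has
       `pos d' < c ≤ pos d` and `r = L + len pos d.1`.

PROOF of uniqueness.  Let `(c, r)` be owned by `v` and by `v'`; show `v = v'`.
leg/leg: the dart in column `c` is unique (`inj`).
bar/bar: `sp v = sp v'`; the intervals `[a, b]`, `[a', b']` of `v`, `v'` (`a, b` smallest and largest
position of darts at `v`) have the same length and both contain `c`.  If `a = a'` the dart is the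
same, so `v = v'`.  Say `a < a' ≤ c ≤ b < b'`, `a' = b` again gives the same dart; `a < a' < b < b'`
is a crossing of the classes of `dend D` (`low`), so `v = v'`.
bar (v) / leg (v'): column `c` contains a dart `d` of `v'`, `pos` of it in `[a, b]`; if it is `a` or
`b`, the dart is the same.  So `a < c < b`.  Let `[a', b']` be the interval of `v'`, `a' ≤ c ≤ b'`.
`r + sp v = L` and `L ≤ r + sp v'` give `sp v ≤ sp v'`, so `b - a ≤ b' - a'`, so `a' < a` or `b < b'`
(or equal ends, i.e. same dart, or `a' = a`, `b' = b`).  `a' < a < c < b`: crossing (`a', c` of `v'`,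
`a, b` of `v`), `a < c < b < b'`: crossing.  So `v = v'`.
arc/arc: edges `e, e'` with the same length, both bars contain `c` (the right halves
`(left, right]`): if `e ≠ e'`, as for bar/bar the two intervals `[l, m]`, `[l', m']` have the same
length, overlap, and cross (`up`) or share an end (impossible, different darts): contradiction.
So `e = e'`, and `d` is the right dart of it for both, `v = v'`.
arc (v, edge `e`, `l < c ≤ m`) / leg (v', dart `d'` in column `c`, edge `e'`): if `c = m` then `d'` is
the right dart of `e`, so `v = v'`.  If `l < c < m`: `r = L + len e ≤ L + len e'`, and the other dart of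
`e'` is outside `[l, m]` or `e' = e` (impossible: `c` is strictly inside) or inside; if it is inside
then `len e' < len e`, contradiction; if it is outside, `e` and `e'` cross: contradiction to `up`.
bar (v) / arc (v'): `r ≤ L < r`: `len pos e ≥ 1`, contradiction. -/

namespace Pool.Agent.Lib.MP_210493_lc

/-- distance of the two darts of an edge -/
def len {E : Type} (pos : E × Bool → ℕ) (e : E) : ℕ :=
  max (pos (e, true)) (pos (e, false)) - min (pos (e, true)) (pos (e, false))

/-- span of the darts at `v` -/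
noncomputable def sp {V E : Type} (D : Dig V E) (pos : E × Bool → ℕ) (v : V) : ℕ :=
  sSup {k | ∃ d d', dend D d = v ∧ dend D d' = v ∧ k = pos d' - pos d}

/-- the cell `(c, r)` belongs to `v` -/
def Own {V E : Type} (D : Dig V E) (pos : E × Bool → ℕ) (L : ℕ) (v : V) (c r : ℕ) : Prop :=
  (∃ d, dend D d = v ∧ pos d = c ∧ L ≤ r + sp D pos v ∧ r ≤ L + len pos d.1) ∨
  (r + sp D pos v = L ∧ ∃ d d', dend D d = v ∧ dend D d' = v ∧ pos d ≤ c ∧ c ≤ pos d') ∨
  (∃ d, dend D d = v ∧ pos (d.1, !d.2) < c ∧ c ≤ pos d ∧ r = L + len pos d.1)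

/-- if there is a dart at `v` then the span is attained -/
theorem exists_sp {V E : Type} [Finite E] (D : Dig V E) (pos : E × Bool → ℕ) (v : V)
    (h : ∃ d, dend D d = v) : ∃ a b, dend D a = v ∧ dend D b = v ∧
      (∀ d, dend D d = v → pos a ≤ pos d ∧ pos d ≤ pos b) ∧ sp D pos v = pos b - pos a := by
  have hfin : ({d | dend D d = v} : Set (E × Bool)).Finite := Set.toFinite _
  have hne : ({d | dend D d = v} : Set (E × Bool)).Nonempty := h
  obtain ⟨a, ha, ha'⟩ := Set.exists_min_image _ pos hfin hne
  obtain ⟨b, hb, hb'⟩ := Set.exists_max_image _ pos hfin hne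
  refine ⟨a, b, ha, hb, fun d hd => ⟨ha' d hd, hb' d hd⟩, ?_⟩
  have hG : IsGreatest {k | ∃ d d', dend D d = v ∧ dend D d' = v ∧ k = pos d' - pos d}
      (pos b - pos a) := by
    refine ⟨⟨a, b, ha, hb, rfl⟩, ?_⟩
    rintro k ⟨d, d', hd, hd', rfl⟩
    have h1 := ha' d hd
    have h2 := hb' d' hd'
    omega
  exact hG.csSup_eq

private theorem len_dart {E : Type} (pos : E × Bool → ℕ) (d : E × Bool) :
    len pos d.1 = max (pos d) (pos (d.1, !d.2)) - min (pos d) (pos (d.1, !d.2)) := by
  obtain ⟨e, b⟩ := d
  cases b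
  · simp [len, max_comm, min_comm]
  · simp [len]

private theorem same_edge {E : Type} {d d' : E × Bool} (h : d.1 = d'.1) :
    d = d' ∨ d = (d'.1, !d'.2) := by
  obtain ⟨e, b⟩ := d
  obtain ⟨e', b'⟩ := d'
  simp only at h
  subst h
  cases b <;> cases b' <;> simp

theorem own_unique {V E : Type} [Finite E] {D : Dig V E} {pos : E × Bool → ℕ}
    (h : NRep Set.univ (dend D) pos) {L : ℕ} (hL : ∀ p, pos p < L) {v v' : V} {c r : ℕ}
    (h1 : Own D pos L v c r) (h2 : Own D pos L v' c r) : v = v' := by
  have hinj : ∀ p q, pos p = pos q → p = q := fun p q => h.inj p q trivial trivial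
  have hup : ∀ p q r s, pos p < pos q → pos q < pos r → pos r < pos s →
      p.1 = r.1 → q.1 = s.1 → p.1 = q.1 := fun p q r s =>
    h.up p trivial q trivial r trivial s trivial
  have hlow : ∀ p q r s, pos p < pos q → pos q < pos r → pos r < pos s →
      dend D p = dend D r → dend D q = dend D s → dend D p = dend D q := fun p q r s =>
    h.low p trivial q trivial r trivial s trivial
  -- same dart gives same vertex
  have hsame : ∀ {u u' : V} {d d' : E × Bool}, dend D d = u → dend D d' = u' →
      pos d = pos d' → u = u' := by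
    intro u u' d d' hd hd' hp
    rw [← hd, ← hd', hinj _ _ hp]
  -- leg / bar
  have hlb : ∀ {u u' : V} {c r : ℕ},
      (∃ d, dend D d = u ∧ pos d = c ∧ L ≤ r + sp D pos u ∧ r ≤ L + len pos d.1) →
      (r + sp D pos u' = L ∧ ∃ d d', dend D d = u' ∧ dend D d' = u' ∧ pos d ≤ c ∧ c ≤ pos d') →
      u = u' := by
    rintro u u' c r ⟨d, hd, hdc, hr1, hr2⟩ ⟨hr, e, e', he, he', hec, hec'⟩
    obtain ⟨a, b, ha, hb, hab, hsp⟩ := exists_sp D pos u ⟨d, hd⟩
    obtain ⟨a', b', ha', hb', hab', hsp'⟩ := exists_sp D pos u' ⟨e, he⟩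
    have h1 := hab d hd
    have h2 := (hab' e he).1
    have h3 := (hab' e' he').2
    have h4 := hab a ha
    have h5 := hab' a' ha'
    by_cases c1 : pos d = pos a'
    · exact hsame hd ha' c1
    by_cases c2 : pos d = pos b'
    · exact hsame hd hb' c2
    by_cases c3 : pos a = pos a'
    · exact hsame ha ha' c3
    by_cases c4 : pos b = pos b'
    · exact hsame hb hb' c4
    rcases lt_or_gt_of_ne c3 with c5 | c5
    · -- a < a' < d < b'
      have := hlow a a' d b' c5 (by omega) (by omega) (by rw [ha, hd]) (by rw [ha', hb'])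
      rw [← ha, ← ha', this]
    · have := hlow a' d b' b (by omega) (by omega) (by omega) (by rw [ha', hb']) (by rw [hd, hb])
      rw [← hd, ← ha', this]
  -- bar / bar
  have hbb : ∀ {u u' : V} {c r : ℕ},
      (r + sp D pos u = L ∧ ∃ d d', dend D d = u ∧ dend D d' = u ∧ pos d ≤ c ∧ c ≤ pos d') →
      (r + sp D pos u' = L ∧ ∃ d d', dend D d = u' ∧ dend D d' = u' ∧ pos d ≤ c ∧ c ≤ pos d') →
      u = u' := by
    rintro u u' c r ⟨hr, d, d', hd, hd', hdc, hdc'⟩ ⟨hr', e, e', he, he', hec, hec'⟩
    obtain ⟨a, b, ha, hb, hab, hsp⟩ := exists_sp D pos u ⟨d, hd⟩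
    obtain ⟨a', b', ha', hb', hab', hsp'⟩ := exists_sp D pos u' ⟨e, he⟩
    have h1 := (hab d hd).1
    have h1' := (hab d' hd').2
    have h2 := (hab' e he).1
    have h3 := (hab' e' he').2
    by_cases c3 : pos a = pos a'
    · exact hsame ha ha' c3
    by_cases c4 : pos b = pos a'
    · exact hsame hb ha' c4
    by_cases c5 : pos a = pos b'
    · exact hsame ha hb' c5
    rcases lt_or_gt_of_ne c3 with c6 | c6
    · have := hlow a a' b b' c6 (by omega) (by omega) (by rw [ha, hb]) (by rw [ha', hb'])
      rw [← ha, ← ha', this]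
    · have := hlow a' a b' b c6 (by omega) (by omega) (by rw [ha', hb']) (by rw [ha, hb])
      rw [← ha, ← ha', this]
  -- leg / arc
  have hla : ∀ {u u' : V} {c r : ℕ},
      (∃ d, dend D d = u ∧ pos d = c ∧ L ≤ r + sp D pos u ∧ r ≤ L + len pos d.1) →
      (∃ d, dend D d = u' ∧ pos (d.1, !d.2) < c ∧ c ≤ pos d ∧ r = L + len pos d.1) →
      u = u' := by
    rintro u u' c r ⟨d, hd, hdc, hr1, hr2⟩ ⟨e, he, hec, hec', hr⟩
    have hl1 := len_dart pos d
    have hl2 := len_dart pos e
    by_cases c1 : pos d = pos e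
    · exact hsame hd he c1
    exfalso
    have key : ¬ d.1 = e.1 := by
      intro h
      rcases same_edge h with h | h
      · exact c1 (by rw [h])
      · rw [← hdc, h] at hec
        exact lt_irrefl _ hec
    have hlen : len pos e.1 ≤ len pos d.1 := by omega
    rw [hl1, hl2] at hlen
    by_cases c2 : pos (d.1, !d.2) < pos (e.1, !e.2)
    · exact key (hup (d.1, !d.2) (e.1, !e.2) d e c2 (by omega) (by omega) rfl rfl)
    by_cases c3 : pos e < pos (d.1, !d.2)
    · exact key (hup (e.1, !e.2) d e (d.1, !d.2) (by omega) (by omega) c3 rfl rfl).symm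
    omega
  -- arc / arc
  have haa : ∀ {u u' : V} {c r : ℕ},
      (∃ d, dend D d = u ∧ pos (d.1, !d.2) < c ∧ c ≤ pos d ∧ r = L + len pos d.1) →
      (∃ d, dend D d = u' ∧ pos (d.1, !d.2) < c ∧ c ≤ pos d ∧ r = L + len pos d.1) →
      u = u' := by
    rintro u u' c r ⟨d, hd, hdc, hdc', hr⟩ ⟨e, he, hec, hec', hr'⟩
    have hl1 := len_dart pos d
    have hl2 := len_dart pos e
    by_cases c1 : pos d = pos e
    · exact hsame hd he c1
    exfalso
    have key : ¬ d.1 = e.1 := by
      intro h
      rcases same_edge h with h | h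
      · exact c1 (by rw [h])
      · rw [← h] at hec
        omega
    rcases lt_or_gt_of_ne c1 with c2 | c2
    · exact key (hup (d.1, !d.2) (e.1, !e.2) d e (by omega) (by omega) c2 rfl rfl)
    · exact key (hup (e.1, !e.2) (d.1, !d.2) e d (by omega) (by omega) c2 rfl rfl).symm
  -- bar / arc
  have hba : ∀ {u u' : V} {c r : ℕ},
      (r + sp D pos u = L ∧ ∃ d d', dend D d = u ∧ dend D d' = u ∧ pos d ≤ c ∧ c ≤ pos d') →
      (∃ d, dend D d = u' ∧ pos (d.1, !d.2) < c ∧ c ≤ pos d ∧ r = L + len pos d.1) →
      u = u' := by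
    rintro u u' c r ⟨hr, -⟩ ⟨e, he, hec, hec', hr'⟩
    have hl2 := len_dart pos e
    omega
  rcases h1 with h1 | h1 | h1 <;> rcases h2 with h2 | h2 | h2
  · obtain ⟨d, hd, hdc, -⟩ := h1
    obtain ⟨e, he, hec, -⟩ := h2
    exact hsame hd he (hdc.trans hec.symm)
  · exact hlb h1 h2
  · exact hla h1 h2
  · exact (hlb h2 h1).symm
  · exact hbb h1 h2
  · exact hba h1 h2
  · exact (hla h2 h1).symm
  · exact (hba h2 h1).symm
  · exact haa h1 h2

end Pool.Agent.Lib.MP_210493_lc
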