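import Pool.Agent.Lib.MP_210493_lc.PL.Defs

/-! Module PL-Rot.  Rotation and rank normalisation of noncrossing representations.

PROOF of `rotate`.  Let `M` be larger than all positions (`E` finite).  Put
`pos' p = if pos p < pos x then pos p + M else pos p`.  `x` is first.  Injective on `T`: clear.
Noncrossing (same for `up` and `low`; do it once for a general `f`): let `p q r s` be increasing
for `pos'`.  The ones with `pos ≥ pos x` come first in the new order.  So with `j` = number of
those among `p, q, r, s` with `pos < pos x`, the old order is the rotation of `(p, q, r, s)`: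
`j = 0` or `4`: `p q r s`; `j = 1`: `s p q r`; `j = 2`: `r s p q`; `j = 3`: `q r s p`.
In each case the old noncrossing property applied to the rotated quadruple gives `f p = f q`
(use `f p = f r`, `f q = f s`).

PROOF of `normalize`.  `pos' p = #{q | pos q < pos p}` (a number `< Nat.card (E × Bool) =
2 * Nat.card E`, since `p` itself is not counted); `pos' p < pos' q ↔ pos p < pos q` because
`pos` is injective. -/

namespace Pool.Agent.Lib.MP_210493_lc

private theorem rot_ncr {P X : Type} {S : Set P} {pos : P → ℕ} {f : P → X} (c M : ℕ)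
    (hM : ∀ p, pos p < M) (h : NCrOn S pos f) :
    NCrOn S (fun p => if pos p < c then pos p + M else pos p) f := by
  intro p hp q hq r hr s hs h1 h2 h3 h4 h5
  have key : ∀ a : P, (pos a < c ∧ (if pos a < c then pos a + M else pos a) = pos a + M) ∨
      (c ≤ pos a ∧ (if pos a < c then pos a + M else pos a) = pos a) := by
    intro a
    by_cases ha : pos a < c
    · exact Or.inl ⟨ha, if_pos ha⟩
    · exact Or.inr ⟨not_lt.1 ha, if_neg ha⟩
  have mp := hM p
  have mq := hM q
  have mr := hM r
  have ms := hM s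
  simp only at h1 h2 h3
  rcases key p with ⟨ap, ep⟩ | ⟨ap, ep⟩ <;> rcases key q with ⟨aq, eq⟩ | ⟨aq, eq⟩ <;>
    rcases key r with ⟨ar, er⟩ | ⟨ar, er⟩ <;> rcases key s with ⟨as, es⟩ | ⟨as, es⟩ <;>
    rw [ep, eq] at h1 <;> rw [eq, er] at h2 <;> rw [er, es] at h3 <;>
    first
    | (exfalso; omega)
    | exact h p hp q hq r hr s hs (by omega) (by omega) (by omega) h4 h5
    | exact h4.trans (h q hq r hr s hs p hp (by omega) (by omega) (by omega) h5 h4.symm).symm
    | exact h4.trans ((h r hr s hs p hp q hq (by omega) (by omega) (by omega) h4.symm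
        h5.symm).trans h5.symm)
    | exact (h s hs p hp q hq r hr (by omega) (by omega) (by omega) h5.symm h4).symm.trans h5.symm

theorem rotate {E X : Type} [Finite E] {T : Set E} {ℓ : E × Bool → X} {pos : E × Bool → ℕ}
    (h : NRep T ℓ pos) (x : E × Bool) (hx : x.1 ∈ T) :
    ∃ pos', NRep T ℓ pos' ∧ ∀ p, p.1 ∈ T → p ≠ x → pos' x < pos' p := by
  classical
  obtain ⟨M, hM⟩ : ∃ M, ∀ p, pos p < M := by
    obtain ⟨B, hB⟩ := (Set.finite_range pos).bddAbove
    exact ⟨B + 1, fun p => Nat.lt_succ_of_le (hB ⟨p, rfl⟩)⟩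
  have key : ∀ a : E × Bool,
      (pos a < pos x ∧ (if pos a < pos x then pos a + M else pos a) = pos a + M) ∨
      (pos x ≤ pos a ∧ (if pos a < pos x then pos a + M else pos a) = pos a) := by
    intro a
    by_cases ha : pos a < pos x
    · exact Or.inl ⟨ha, if_pos ha⟩
    · exact Or.inr ⟨not_lt.1 ha, if_neg ha⟩
  refine ⟨fun p => if pos p < pos x then pos p + M else pos p,
    ⟨?_, rot_ncr (pos x) M hM h.up, rot_ncr (pos x) M hM h.low⟩, ?_⟩
  · intro p q hp hq hpq
    apply h.inj p q hp hq
    have h1 := hM p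
    have h2 := hM q
    rcases key p with ⟨ap, ep⟩ | ⟨ap, ep⟩ <;> rcases key q with ⟨aq, eq⟩ | ⟨aq, eq⟩ <;>
      rw [ep, eq] at hpq <;> omega
  · intro p hp hpx
    have h1 := hM p
    have h2 := hM x
    have h3 : pos p ≠ pos x := fun h3 => hpx (h.inj p x hp hx h3)
    change (if pos x < pos x then pos x + M else pos x) < if pos p < pos x then pos p + M else pos p
    rcases key p with ⟨ap, ep⟩ | ⟨ap, ep⟩ <;> rw [ep, if_neg (lt_irrefl _)] <;> omega

theorem normalize {E X : Type} [Finite E] {ℓ : E × Bool → X} {pos : E × Bool → ℕ}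
    (h : NRep Set.univ ℓ pos) : ∃ pos', NRep Set.univ ℓ pos' ∧ ∀ p, pos' p < 2 * Nat.card E := by
  classical
  have : Fintype E := Fintype.ofFinite E
  have hlt : ∀ p q : E × Bool, (Finset.univ.filter fun a => pos a < pos p).card <
      (Finset.univ.filter fun a => pos a < pos q).card ↔ pos p < pos q := by
    intro p q
    constructor
    · intro h1
      by_contra h2
      exact absurd h1 (not_lt.2 (Finset.card_le_card (fun a ha => by
        rw [Finset.mem_filter] at ha ⊢
        exact ⟨ha.1, lt_of_lt_of_le ha.2 (not_lt.1 h2)⟩)))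
    · intro h1
      apply Finset.card_lt_card
      rw [Finset.ssubset_iff_of_subset (fun a ha => by
        rw [Finset.mem_filter] at ha ⊢
        exact ⟨ha.1, ha.2.trans h1⟩)]
      exact ⟨p, by simp [h1], by simp⟩
  refine ⟨fun p => (Finset.univ.filter fun a => pos a < pos p).card, ⟨?_, ?_, ?_⟩, ?_⟩
  · intro p q _ _ hpq
    rcases lt_trichotomy (pos p) (pos q) with h1 | h1 | h1
    · exact absurd hpq (((hlt p q).2 h1).ne)
    · exact h.inj p q trivial trivial h1
    · exact absurd hpq (((hlt q p).2 h1).ne')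
  · intro p hp q hq r hr s hs h1 h2 h3 h4 h5
    exact h.up p hp q hq r hr s hs ((hlt p q).1 h1) ((hlt q r).1 h2) ((hlt r s).1 h3) h4 h5
  · intro p hp q hq r hr s hs h1 h2 h3 h4 h5
    exact h.low p hp q hq r hr s hs ((hlt p q).1 h1) ((hlt q r).1 h2) ((hlt r s).1 h3) h4 h5
  · intro p
    have h1 : (Finset.univ.filter fun a => pos a < pos p).card < Fintype.card (E × Bool) := by
      rw [← Finset.card_univ]
      apply Finset.card_lt_card
      rw [Finset.ssubset_iff_of_subset (Finset.filter_subset _ _)]
      exact ⟨p, Finset.mem_univ _, by simp⟩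
    rw [Fintype.card_prod, Fintype.card_bool, ← Nat.card_eq_fintype_card, mul_comm] at h1
    exact h1

end Pool.Agent.Lib.MP_210493_lc
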